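import Mathlib
import Pool.Agent.H93.FourFun

set_option autoImplicit false

namespace Pool.Agent.Results.MP_58c014_an.Decreasing

open MeasureTheory Real Set Filter Topology

/-- The weight. -/
noncomputable def P {n : ℕ} (x : Fin n → ℝ) : ℝ :=
  exp (-∑ j, x j) * ∏ k, ∏ j ∈ Finset.Ioi k, (x j - x k) ^ 2

/-- The integral F. -/
noncomputable def F (n : ℕ) (t : ℝ) : ℝ :=
  ∫ x in Ici (0 : Fin n → ℝ), P x * ∏ j, (x j + t) ^ (-(1 / 2) : ℝ)

/-- The integral G. -/
noncomputable def G (n : ℕ) (t : ℝ) : ℝ :=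
  ∫ x in Ici (0 : Fin n → ℝ), P x * ∏ j, (x j + t) ^ (1 / 2 : ℝ)

/-- The double integral H. -/
noncomputable def H (n : ℕ) (t : ℝ) : ℝ :=
  ∫ x in Ici (0 : Fin n → ℝ), ∫ y in Ici (0 : Fin n → ℝ),
    P x * P y * (∑ j, (1 / (x j + t) - 1 / (y j + t))) * ∏ j, ((x j + t) / (y j + t)) ^ (1 / 2 : ℝ)

variable {n : ℕ}

/-- open orthant -/
def O (n : ℕ) : Set (Fin n → ℝ) := univ.pi (fun _ => Ioi 0)

/-- chamber -/
def C (n : ℕ) : Set (Fin n → ℝ) := {x | StrictMono x} ∩ O n

lemma mem_O {x : Fin n → ℝ} : x ∈ O n ↔ ∀ j, 0 < x j := by simp [O]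

lemma open_O : IsOpen (O n) := isOpen_set_pi finite_univ (fun _ _ => isOpen_Ioi)

lemma open_C : IsOpen (C n) := by
  refine IsOpen.inter ?_ open_O
  have : {x : Fin n → ℝ | StrictMono x} = ⋂ i, ⋂ j, {x | i < j → x i < x j} := by
    ext x; simp [StrictMono]
  rw [this]
  refine isOpen_iInter_of_finite fun i => isOpen_iInter_of_finite fun j => ?_
  by_cases h : i < j
  · simpa [h] using isOpen_lt (continuous_apply i) (continuous_apply j)
  · simp [h]

lemma res_eq : (volume : Measure (Fin n → ℝ)).restrict (Ici 0) = volume.restrict (O n) :=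
  (Measure.restrict_congr_set Measure.univ_pi_Ioi_ae_eq_Ici).symm

lemma P_nonneg (x : Fin n → ℝ) : 0 ≤ P x := by unfold P; positivity

lemma P_cont : Continuous (P : (Fin n → ℝ) → ℝ) := by unfold P; fun_prop

lemma P_det (x : Fin n → ℝ) : P x = exp (-∑ j, x j) * (Matrix.vandermonde x).det ^ 2 := by
  simp [P, Matrix.det_vandermonde, Finset.prod_pow]

lemma P_perm (x : Fin n → ℝ) (σ : Equiv.Perm (Fin n)) : P (x ∘ σ) = P x := by
  rw [P_det, P_det, show Matrix.vandermonde (x ∘ σ) = (Matrix.vandermonde x).submatrix σ id from rfl,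
    Matrix.det_permute, mul_pow]
  have : ((Equiv.Perm.sign σ : ℤ) : ℝ) ^ 2 = 1 := by
    rcases Int.units_eq_one_or (Equiv.Perm.sign σ) with h | h <;> simp [h]
  rw [this, one_mul]
  congr 3
  exact Equiv.sum_comp σ x

lemma P_zero {x : Fin n → ℝ} (h : ¬ Function.Injective x) : P x = 0 := by
  rw [P_det]
  have : (Matrix.vandermonde x).det = 0 := by
    by_contra h'
    exact h (Matrix.det_vandermonde_ne_zero_iff.1 h')
  simp [this]

lemma P_pos {x : Fin n → ℝ} (h : Function.Injective x) : 0 < P x := by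
  rw [P_det]
  have := Matrix.det_vandermonde_ne_zero_iff.2 h
  positivity

/-- dominating product -/
noncomputable def β (x : Fin n → ℝ) : ℝ := ∏ j, (x j ^ (-(1 / 2) : ℝ) * (1 + x j))

/-- integrability against the weight -/
def Int (f : (Fin n → ℝ) → ℝ) : Prop := IntegrableOn (fun x => P x * f x) (O n)

lemma int_β : Int (β : (Fin n → ℝ) → ℝ) := by
  obtain ⟨M, hM, hP⟩ : ∃ M : ℕ, 1 ≤ M ∧ ∀ x ∈ O n, P x * β x ≤
      ∏ j, (exp (-x j) * (1 + x j) ^ M * x j ^ (-(1 / 2) : ℝ)) := by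
    refine ⟨2 * (∑ k : Fin n, (Finset.Ioi k).card) + 1, by omega, fun x hx => ?_⟩
    rw [mem_O] at hx
    have h1 : ∀ j, 1 + x j ≤ ∏ i, (1 + x i) := fun j => by
      rw [← Finset.mul_prod_erase _ _ (Finset.mem_univ j)]
      exact le_mul_of_one_le_right (by linarith [hx j])
        (Finset.one_le_prod (fun i _ => by linarith [hx i]))
    have h2 : ∏ k, ∏ j ∈ Finset.Ioi k, (x j - x k) ^ 2 ≤
        ∏ k : Fin n, ∏ _j ∈ Finset.Ioi k, (∏ i, (1 + x i)) ^ 2 := by
      refine Finset.prod_le_prod (fun _ _ => by positivity) (fun k _ => ?_)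
      refine Finset.prod_le_prod (fun _ _ => by positivity) (fun j _ => ?_)
      refine sq_le_sq' ?_ ?_ <;> linarith [h1 j, h1 k, hx j, hx k]
    simp only [Finset.prod_const, Finset.prod_pow_eq_pow_sum, ← pow_mul] at h2
    have h3 : 0 ≤ β x := Finset.prod_nonneg (fun j _ => by have := hx j; positivity)
    refine (mul_le_mul_of_nonneg_right (mul_le_mul_of_nonneg_left h2 (exp_pos _).le) h3).trans_eq ?_
    simp only [β, Finset.prod_mul_distrib, Finset.prod_pow, ← exp_sum, Finset.sum_neg_distrib,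
      ← Finset.mul_sum]
    ring
  have h1 : IntegrableOn (fun s : ℝ => exp (-s) * (1 + s) ^ M * s ^ (-(1 / 2) : ℝ)) (Ioi 0) := by
    have := (integrableOn_rpow_mul_exp_neg_mul_rpow (p := 1) (s := -(1 / 2)) (b := 1 / 2)
      (by norm_num) one_pos (by norm_num)).const_mul ((2 * M : ℝ) ^ M)
    refine Integrable.mono' this (Measurable.aestronglyMeasurable (by fun_prop)) ?_
    refine (ae_restrict_iff' measurableSet_Ioi).2 (Eventually.of_forall fun s hs => ?_)
    have hs : 0 < s := hs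
    have hM' : (1 : ℝ) ≤ M := by exact_mod_cast hM
    have h2 : 1 + s ≤ 2 * M * exp (s / (2 * M)) := by
      have := add_one_le_exp (s / (2 * M))
      calc 1 + s ≤ 2 * M * (s / (2 * M) + 1) := by field_simp; linarith
        _ ≤ _ := by gcongr
    have h3 : (1 + s) ^ M ≤ (2 * M : ℝ) ^ M * exp (s / 2) := by
      calc _ ≤ (2 * M * exp (s / (2 * M))) ^ M := by gcongr
        _ = _ := by rw [mul_pow, ← exp_nat_mul]; congr 2; field_simp
    rw [Real.norm_of_nonneg (by positivity), rpow_one]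
    calc _ ≤ exp (-s) * ((2 * M : ℝ) ^ M * exp (s / 2)) * s ^ (-(1 / 2) : ℝ) := by gcongr
      _ = (2 * M : ℝ) ^ M * (s ^ (-(1 / 2) : ℝ) * (exp (-s) * exp (s / 2))) := by ring
      _ = _ := by rw [← exp_add]; congr 3; ring
  have h2 := Integrable.fintype_prod (ι := Fin n) (fun _ => h1)
  rw [← Measure.restrict_pi_pi] at h2
  refine Integrable.mono' h2 (Measurable.aestronglyMeasurable
    (P_cont.measurable.mul (by unfold β; fun_prop))) ?_
  refine (ae_restrict_iff' open_O.measurableSet).2 (Eventually.of_forall fun x hx => ?_)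
  have h3 : 0 ≤ β x := Finset.prod_nonneg (fun j _ => by have := mem_O.1 hx j; positivity)
  rw [Real.norm_of_nonneg (mul_nonneg (P_nonneg x) h3)]
  exact hP x hx

lemma Int.of_le {f g : (Fin n → ℝ) → ℝ} (hg : Int g) (hf : Measurable f) (c : ℝ)
    (h : ∀ x ∈ O n, |f x| ≤ c * g x) : Int f := by
  refine Integrable.mono' (hg.const_mul c) (P_cont.measurable.mul hf).aestronglyMeasurable ?_
  refine (ae_restrict_iff' open_O.measurableSet).2 (Eventually.of_forall fun x hx => ?_)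
  rw [norm_mul, Real.norm_of_nonneg (P_nonneg x), mul_left_comm]
  exact mul_le_mul_of_nonneg_left (h x hx) (P_nonneg x)

/-- product of powers -/
noncomputable def R (t a : ℝ) (x : Fin n → ℝ) : ℝ := ∏ j, (x j + t) ^ a

lemma R_pos {t : ℝ} (ht : 0 ≤ t) (a : ℝ) {x : Fin n → ℝ} (hx : x ∈ O n) : 0 < R t a x :=
  Finset.prod_pos (fun j _ => by have := mem_O.1 hx j; positivity)

lemma R_meas (t a : ℝ) : Measurable (R t a : (Fin n → ℝ) → ℝ) := by unfold R; fun_prop

lemma R_le {t T a : ℝ} (ht : 0 ≤ t) (hT : t ≤ T) (ha : a = 1 / 2 ∨ a = -(1 / 2)) {x : Fin n → ℝ}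
    (hx : x ∈ O n) : R t a x ≤ (1 + T) ^ n * β x := by
  have : (1 + T) ^ n = ∏ _j : Fin n, (1 + T) := by simp
  rw [this, β, ← Finset.prod_mul_distrib]
  refine Finset.prod_le_prod (fun j _ => by have := mem_O.1 hx j; positivity) (fun j _ => ?_)
  have h0 := mem_O.1 hx j
  have h1 : (x j + t) ^ (-(1 / 2) : ℝ) ≤ x j ^ (-(1 / 2) : ℝ) :=
    rpow_le_rpow_of_nonpos h0 (by linarith) (by norm_num)
  have h2 : 0 < x j ^ (-(1 / 2) : ℝ) := by positivity
  rcases ha with rfl | rfl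
  · rw [show (1 / 2 : ℝ) = -(1 / 2) + 1 by norm_num, rpow_add_one (by positivity)]
    calc _ ≤ x j ^ (-(1 / 2) : ℝ) * ((1 + T) * (1 + x j)) := by gcongr; nlinarith
      _ = _ := by norm_num; ring
  · calc _ ≤ x j ^ (-(1 / 2) : ℝ) * ((1 + T) * (1 + x j)) :=
          h1.trans (le_mul_of_one_le_right h2.le (by nlinarith))
      _ = _ := by ring

lemma int_R {t a : ℝ} (ht : 0 ≤ t) (ha : a = 1 / 2 ∨ a = -(1 / 2)) :
    Int (R t a : (Fin n → ℝ) → ℝ) :=
  int_β.of_le (R_meas t a) _ (fun x hx => by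
    rw [abs_of_pos (R_pos ht a hx)]; exact R_le ht le_rfl ha hx)

/-- integral over the chamber -/
noncomputable def I (f : (Fin n → ℝ) → ℝ) : ℝ := ∫ x, (C n).indicator (fun x => P x * f x) x

lemma Int.chamber {f : (Fin n → ℝ) → ℝ} (hf : Int f) :
    Integrable ((C n).indicator (fun x => P x * f x)) :=
  (integrable_indicator_iff open_C.measurableSet).2 (hf.mono_set inter_subset_right)

lemma sym {f : (Fin n → ℝ) → ℝ} (hf : Int f) (hs : ∀ x (σ : Equiv.Perm (Fin n)), f (x ∘ σ) = f x) :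
    ∫ x in Ici (0 : Fin n → ℝ), P x * f x = n.factorial * I f := by
  have mp : ∀ σ : Equiv.Perm (Fin n), MeasurePreserving
      (MeasurableEquiv.piCongrLeft (fun _ : Fin n => ℝ) σ).symm volume volume := fun σ =>
    (volume_measurePreserving_piCongrLeft (fun _ : Fin n => ℝ) σ).symm
  have e : ∀ x, (O n).indicator (fun x => P x * f x) x =
      ∑ σ : Equiv.Perm (Fin n), (C n).indicator (fun x => P x * f x) (x ∘ σ) := by
    intro x
    by_cases hx : x ∈ O n
    · by_cases hi : Function.Injective x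
      · rw [indicator_of_mem hx, Finset.sum_eq_single (Tuple.sort x), indicator_of_mem, P_perm, hs]
        · exact ⟨(Tuple.monotone_sort x).strictMono_of_injective (hi.comp (Equiv.injective _)),
            mem_O.2 (fun j => mem_O.1 hx _)⟩
        · intro σ _ hne
          refine indicator_of_notMem (fun h => hne ?_) _
          have := Tuple.unique_monotone (StrictMono.monotone h.1) (Tuple.monotone_sort x)
          exact Equiv.ext (fun j => hi (congrFun this j))
        · simp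
      · rw [indicator_of_mem hx, P_zero hi, zero_mul]
        refine (Finset.sum_eq_zero fun σ _ => ?_).symm
        simp [indicator, P_perm, P_zero hi]
    · rw [indicator_of_notMem hx]
      refine (Finset.sum_eq_zero fun σ _ => indicator_of_notMem (fun h => hx ?_) _).symm
      exact mem_O.2 (fun j => by simpa using mem_O.1 h.2 (σ.symm j))
  rw [res_eq, ← integral_indicator open_O.measurableSet]
  simp_rw [e]
  rw [integral_finsetSum _ (fun σ _ => by exact (mp σ).integrable_comp_of_integrable hf.chamber)]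
  have : ∀ σ : Equiv.Perm (Fin n), ∫ x, (C n).indicator (fun x => P x * f x) (x ∘ σ) = I f :=
    fun σ => (mp σ).integral_comp' ((C n).indicator (fun x => P x * f x))
  simp [this, Fintype.card_perm]

lemma tp2 (a b c d : ℝ) :
    (b - a) * (d - c) ≤ (min b d - min a c) * (max b d - max a c) := by
  rcases le_total a c with h | h <;> rcases le_total b d with h' | h' <;>
    simp only [min_eq_left, min_eq_right, max_eq_left, max_eq_right, h, h'] <;> nlinarith

lemma mtp2 {x y : Fin n → ℝ} (hx : x ∈ C n) (hy : y ∈ C n) :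
    x ⊓ y ∈ C n ∧ x ⊔ y ∈ C n ∧ P x * P y ≤ P (x ⊓ y) * P (x ⊔ y) := by
  refine ⟨⟨fun i j h => min_lt_min (hx.1 h) (hy.1 h), mem_O.2 fun j =>
    lt_min (mem_O.1 hx.2 j) (mem_O.1 hy.2 j)⟩, ⟨fun i j h => max_lt_max (hx.1 h) (hy.1 h),
    mem_O.2 fun j => lt_max_of_lt_left (mem_O.1 hx.2 j)⟩, ?_⟩
  unfold P
  rw [mul_mul_mul_comm, mul_mul_mul_comm (exp (-∑ j, (x ⊓ y) j)), ← exp_add, ← exp_add]
  refine mul_le_mul (le_of_eq ?_) ?_ (by positivity) (by positivity)
  · congr 1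
    simp only [← neg_add, ← Finset.sum_add_distrib, Pi.inf_apply, Pi.sup_apply, min_add_max]
  · simp only [← Finset.prod_mul_distrib, ← mul_pow]
    refine Finset.prod_le_prod (fun _ _ => by positivity) (fun k _ => ?_)
    refine Finset.prod_le_prod (fun _ _ => by positivity) (fun j hj => ?_)
    have h1 := hx.1 (Finset.mem_Ioi.1 hj)
    have h2 := hy.1 (Finset.mem_Ioi.1 hj)
    exact pow_le_pow_left₀ (mul_nonneg (by linarith) (by linarith)) (tp2 _ _ _ _) 2

lemma ad {a b c d : (Fin n → ℝ) → ℝ} (ha : Measurable a) (hb : Measurable b)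
    (hc : Measurable c) (hd : Measurable d) (a0 : ∀ x ∈ O n, 0 ≤ a x) (b0 : ∀ x ∈ O n, 0 ≤ b x)
    (c0 : ∀ x ∈ O n, 0 ≤ c x) (d0 : ∀ x ∈ O n, 0 ≤ d x) (ai : Int a) (bi : Int b)
    (ci : Int c) (di : Int d) (h : ∀ x ∈ O n, ∀ y ∈ O n, a x * b y ≤ c (x ⊓ y) * d (x ⊔ y)) :
    I a * I b ≤ I c * I d := by
  have m : ∀ {a : (Fin n → ℝ) → ℝ}, Measurable a →
      Measurable ((C n).indicator (fun x => P x * a x)) := fun ha =>
    (P_cont.measurable.mul ha).indicator open_C.measurableSet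
  have p : ∀ {a : (Fin n → ℝ) → ℝ}, (∀ x ∈ O n, 0 ≤ a x) →
      ∀ x, 0 ≤ (C n).indicator (fun x => P x * a x) x := fun ha =>
    indicator_nonneg (fun x hx => mul_nonneg (P_nonneg x) (ha x hx.2))
  refine Pool.Agent.H93.FourFun.four_real (m ha) (m hb) (m hc) (m hd) (p a0) (p b0) (p c0) (p d0)
    ai.chamber bi.chamber ci.chamber di.chamber (fun x y => ?_)
  by_cases hx : x ∈ C n
  · by_cases hy : y ∈ C n
    · obtain ⟨h1, h2, h3⟩ := mtp2 hx hy
      rw [indicator_of_mem hx, indicator_of_mem hy, indicator_of_mem h1, indicator_of_mem h2,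
        mul_mul_mul_comm, mul_mul_mul_comm (P (x ⊓ y))]
      exact mul_le_mul h3 (h x hx.2 y hy.2) (mul_nonneg (a0 x hx.2) (b0 y hy.2))
        (mul_nonneg (P_nonneg _) (P_nonneg _))
    · rw [indicator_of_notMem hy, mul_zero]; exact mul_nonneg (p c0 _) (p d0 _)
  · rw [indicator_of_notMem hx, zero_mul]; exact mul_nonneg (p c0 _) (p d0 _)

lemma R_perm (t a : ℝ) (x : Fin n → ℝ) (σ : Equiv.Perm (Fin n)) : R t a (x ∘ σ) = R t a x :=
  Equiv.prod_comp σ (fun j => (x j + t) ^ a)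

lemma anti : AntitoneOn (fun t => F n t * G n t) (Ici 0) := by
  intro s hs t ht hst
  have e1 : ∀ t, 0 ≤ t → F n t = n.factorial * I (R t (-(1 / 2)) : (Fin n → ℝ) → ℝ) :=
    fun t ht => sym (int_R ht (Or.inr rfl)) (R_perm _ _)
  have e2 : ∀ t, 0 ≤ t → G n t = n.factorial * I (R t (1 / 2) : (Fin n → ℝ) → ℝ) :=
    fun t ht => sym (int_R ht (Or.inl rfl)) (R_perm _ _)
  simp only
  rw [e1 s hs, e1 t ht, e2 s hs, e2 t ht, mul_mul_mul_comm, mul_mul_mul_comm _ (I (R s _))]
  refine mul_le_mul_of_nonneg_left ?_ (by positivity)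
  refine ad (R_meas _ _) (R_meas _ _) (R_meas _ _) (R_meas _ _) (fun x hx => (R_pos ht _ hx).le)
    (fun x hx => (R_pos ht _ hx).le) (fun x hx => (R_pos hs _ hx).le)
    (fun x hx => (R_pos hs _ hx).le) (int_R ht (Or.inr rfl)) (int_R ht (Or.inl rfl))
    (int_R hs (Or.inr rfl)) (int_R hs (Or.inl rfl)) (fun x hx y hy => ?_)
  have hs : 0 ≤ s := hs
  have ht : 0 ≤ t := ht
  simp only [R, ← Finset.prod_mul_distrib, Pi.inf_apply, Pi.sup_apply]
  refine Finset.prod_le_prod (fun j _ => by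
    have := mem_O.1 hx j; have := mem_O.1 hy j; positivity) (fun j _ => ?_)
  have h1 := mem_O.1 hx j
  have h2 := mem_O.1 hy j
  have h3 : 0 < min (x j) (y j) := lt_min h1 h2
  have h4 : 0 < max (x j) (y j) := lt_max_of_lt_left h1
  rw [rpow_neg (by positivity), rpow_neg (by positivity), inv_mul_eq_div, inv_mul_eq_div,
    ← div_rpow (by positivity) (by positivity), ← div_rpow (by positivity) (by positivity)]
  refine rpow_le_rpow (by positivity) ?_ (by norm_num)
  rw [div_le_div_iff₀ (by positivity) (by positivity)]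
  rcases le_total (x j) (y j) with h | h
  · rw [min_eq_left h, max_eq_right h]; nlinarith
  · rw [min_eq_right h, max_eq_left h]; nlinarith

lemma I_congr {f g : (Fin n → ℝ) → ℝ} (h : ∀ x ∈ O n, f x = g x) : I f = I g := by
  unfold I
  congr 1
  exact indicator_congr (fun x hx => by simp only [h x hx.2])

lemma I_add {f g : (Fin n → ℝ) → ℝ} (hf : Int f) (hg : Int g) (c : ℝ) :
    I (fun x => f x + c * g x) = I f + c * I g := by
  unfold I
  rw [← integral_const_mul, ← integral_add hf.chamber (hg.chamber.const_mul c)]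
  congr 1
  funext x
  by_cases hx : x ∈ C n <;> simp [hx]
  ring

lemma I_pos {f : (Fin n → ℝ) → ℝ} (hf : Int f) (f0 : ∀ x ∈ O n, 0 ≤ f x) {U : Set (Fin n → ℝ)}
    (hU : IsOpen U) (hne : (C n ∩ U).Nonempty) (h : ∀ x ∈ C n ∩ U, 0 < f x) : 0 < I f := by
  refine (integral_pos_iff_support_of_nonneg (indicator_nonneg (fun x hx =>
    mul_nonneg (P_nonneg x) (f0 x hx.2))) hf.chamber).2 ?_
  refine ((open_C.inter hU).measure_pos volume hne).trans_le (measure_mono fun x hx => ?_)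
  rw [Function.mem_support, indicator_of_mem hx.1]
  exact (mul_pos (P_pos (StrictMono.injective hx.1.1)) (h x hx)).ne'

lemma C_mem {c : ℝ} (hc : 0 < c) : (fun j : Fin n => c * ((j : ℝ) + 1)) ∈ C n :=
  ⟨fun i j h => by
    have : (i : ℝ) < j := by exact_mod_cast h
    simp only; gcongr, mem_O.2 fun j => by positivity⟩

/-- plain product -/
noncomputable def ρ (t : ℝ) (x : Fin n → ℝ) : ℝ := ∏ j, (x j + t)

/-- sum of reciprocals -/
noncomputable def φ (t : ℝ) (x : Fin n → ℝ) : ℝ := ∑ j, 1 / (x j + t)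

lemma R_mul {t : ℝ} (ht : 0 < t) {x : Fin n → ℝ} (hx : x ∈ O n) :
    R t (1 / 2) x = R t (-(1 / 2)) x * ρ t x := by
  rw [R, R, ρ, ← Finset.prod_mul_distrib]
  refine Finset.prod_congr rfl (fun j _ => ?_)
  have := mem_O.1 hx j
  rw [← rpow_add_one (by positivity)]; norm_num

lemma ρ_ge {t : ℝ} (ht : 0 < t) {x : Fin n → ℝ} (hx : ∀ j, 0 < x j) : t ^ n ≤ ρ t x := by
  have : t ^ n = ∏ _j : Fin n, t := by simp
  rw [this]
  exact Finset.prod_le_prod (fun _ _ => ht.le) (fun j _ => by linarith [hx j])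

lemma ρ_mono {t : ℝ} (ht : 0 < t) {x y : Fin n → ℝ} (hx : ∀ j, 0 < x j) (h : x ≤ y) :
    ρ t x ≤ ρ t y :=
  Finset.prod_le_prod (fun j _ => by linarith [hx j]) (fun j _ => by linarith [h j])

lemma φ_bd {t : ℝ} (ht : 0 < t) {x : Fin n → ℝ} (hx : ∀ j, 0 < x j) :
    0 ≤ φ t x ∧ φ t x ≤ n / t := by
  refine ⟨Finset.sum_nonneg (fun j _ => by have := hx j; positivity), ?_⟩
  calc φ t x ≤ ∑ _j : Fin n, 1 / t :=
        Finset.sum_le_sum (fun j _ => one_div_le_one_div_of_le ht (by linarith [hx j]))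
    _ = _ := by simp [div_eq_mul_inv]

lemma φ_anti {t : ℝ} (ht : 0 < t) {x y : Fin n → ℝ} (hx : ∀ j, 0 < x j) (h : x ≤ y) :
    φ t y ≤ φ t x :=
  Finset.sum_le_sum (fun j _ => one_div_le_one_div_of_le (by linarith [hx j]) (by linarith [h j]))

lemma intr {t : ℝ} (ht : 0 < t) {f g : (Fin n → ℝ) → ℝ} (mf : Measurable f) (mg : Measurable g)
    {c d : ℝ} (f0 : ∀ x ∈ O n, 0 ≤ f x ∧ f x ≤ c) (g0 : ∀ x ∈ O n, 0 ≤ g x ∧ g x ≤ d * ρ t x) :
    Int (fun x => R t (-(1 / 2)) x * (f x * g x)) := by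
  refine (int_R ht.le (Or.inl rfl)).of_le ((R_meas _ _).mul (mf.mul mg)) (c * d) (fun x hx => ?_)
  have h1 := R_pos ht.le (-(1 / 2)) hx
  obtain ⟨h2, h3⟩ := f0 x hx
  obtain ⟨h4, h5⟩ := g0 x hx
  rw [abs_of_nonneg (by positivity), R_mul ht hx]
  calc _ ≤ R t (-(1 / 2)) x * (c * (d * ρ t x)) := by gcongr; linarith
    _ = _ := by ring

lemma one_bd {t : ℝ} (ht : 0 < t) : ∀ x ∈ O n, (0 : ℝ) ≤ 1 ∧ 1 ≤ (t ^ n)⁻¹ * ρ t x :=
  fun x hx => ⟨zero_le_one, by
    rw [le_inv_mul_iff₀ (by positivity), mul_one]; exact ρ_ge ht (mem_O.1 hx)⟩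

/-- moment functional -/
noncomputable def J (t : ℝ) (f g : (Fin n → ℝ) → ℝ) : ℝ :=
  I (fun x => R t (-(1 / 2)) x * (f x * g x))

lemma fkg {t : ℝ} (ht : 0 < t) {f g : (Fin n → ℝ) → ℝ} (mf : Measurable f) (mg : Measurable g)
    {c d : ℝ} (f0 : ∀ x ∈ O n, 0 ≤ f x ∧ f x ≤ c) (g0 : ∀ x ∈ O n, 0 ≤ g x ∧ g x ≤ d * ρ t x)
    (hf : ∀ x ∈ O n, ∀ y, x ≤ y → f y ≤ f x) (hg : ∀ x ∈ O n, ∀ y, x ≤ y → g x ≤ g y) :
    J t f g * J t (fun _ : Fin n → ℝ => 1) (fun _ => 1) ≤ J t f (fun _ => 1) * J t (fun _ => 1) g := by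
  have o : ∀ x ∈ O n, (0 : ℝ) ≤ 1 ∧ (1 : ℝ) ≤ 1 := fun _ _ => ⟨zero_le_one, le_rfl⟩
  have r0 := fun x hx => (R_pos (n := n) ht.le (-(1 / 2)) (x := x) hx).le
  refine ad ((R_meas _ _).mul (mf.mul mg)) ((R_meas _ _).mul measurable_const)
    ((R_meas _ _).mul (mf.mul measurable_const)) ((R_meas _ _).mul (measurable_const.mul mg))
    (fun x hx => mul_nonneg (r0 x hx) (mul_nonneg (f0 x hx).1 (g0 x hx).1))
    (fun x hx => mul_nonneg (r0 x hx) (by norm_num))
    (fun x hx => mul_nonneg (r0 x hx) (mul_nonneg (f0 x hx).1 zero_le_one))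
    (fun x hx => mul_nonneg (r0 x hx) (mul_nonneg zero_le_one (g0 x hx).1))
    (intr ht mf mg f0 g0) (intr ht measurable_const measurable_const o (one_bd ht))
    (intr ht mf measurable_const f0 (one_bd ht)) (intr ht measurable_const mg o g0)
    (fun x hx y hy => ?_)
  have hm : x ⊓ y ∈ O n := mem_O.2 fun j => lt_min (mem_O.1 hx j) (mem_O.1 hy j)
  have e : R t (-(1 / 2)) x * R t (-(1 / 2)) y = R t (-(1 / 2)) (x ⊓ y) * R t (-(1 / 2)) (x ⊔ y) := by
    simp only [R, ← Finset.prod_mul_distrib, Pi.inf_apply, Pi.sup_apply]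
    refine Finset.prod_congr rfl (fun j _ => ?_)
    rcases le_total (x j) (y j) with h | h
    · rw [min_eq_left h, max_eq_right h]
    · rw [min_eq_right h, max_eq_left h, mul_comm]
  rw [mul_mul_mul_comm, mul_mul_mul_comm (R t _ (x ⊓ y)), ← e]
  refine mul_le_mul_of_nonneg_left ?_ (mul_nonneg (r0 x hx) (r0 y hy))
  simp only [mul_one, one_mul]
  exact mul_le_mul (hf _ hm _ inf_le_left) (hg _ hx _ le_sup_left) (g0 x hx).1 (f0 _ hm).1

lemma strict {m : ℕ} {t : ℝ} (ht : 0 < t) :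
    J (n := m + 1) t (φ t) (ρ t) * J t (fun _ : Fin (m + 1) → ℝ => 1) (fun _ => 1) <
      J t (φ t : (Fin (m + 1) → ℝ) → ℝ) (fun _ => 1) * J t (fun _ : Fin (m + 1) → ℝ => 1) (ρ t) := by
  set φ' : (Fin (m + 1) → ℝ) → ℝ := fun x => φ t (fun j : Fin m => x j.succ)
  set χ : (Fin (m + 1) → ℝ) → ℝ := fun x => 1 / (x 0 + t)
  set ξ : (Fin (m + 1) → ℝ) → ℝ := fun x => x 0 + t
  set ρ₁ : (Fin (m + 1) → ℝ) → ℝ := fun x => (x 0 + t) * (ρ t (fun j : Fin m => x j.succ) - t ^ m)
  set one : (Fin (m + 1) → ℝ) → ℝ := fun _ => 1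
  have mφ : Measurable φ' := by simp only [φ', φ]; fun_prop
  have mχ : Measurable χ := by fun_prop
  have mξ : Measurable ξ := by fun_prop
  have mρ₁ : Measurable ρ₁ := by simp only [ρ₁, ρ]; fun_prop
  have mρ : Measurable (ρ t : (Fin (m + 1) → ℝ) → ℝ) := by unfold ρ; fun_prop
  have mo : Measurable one := measurable_const
  have eρ : ∀ x : Fin (m + 1) → ℝ, ρ t x = (x 0 + t) * ρ t (fun j : Fin m => x j.succ) :=
    fun x => Fin.prod_univ_succ _
  have eφ : ∀ x : Fin (m + 1) → ℝ, φ t x = χ x + φ' x := fun x => Fin.sum_univ_succ _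
  have bφ : ∀ x ∈ O (m + 1), 0 ≤ φ' x ∧ φ' x ≤ m / t := fun x hx => φ_bd ht (fun j => mem_O.1 hx _)
  have bχ : ∀ x ∈ O (m + 1), 0 ≤ χ x ∧ χ x ≤ 1 / t := fun x hx => by
    have := mem_O.1 hx 0
    exact ⟨by positivity, one_div_le_one_div_of_le ht (by linarith)⟩
  have bo : ∀ x ∈ O (m + 1), 0 ≤ one x ∧ one x ≤ 1 := fun _ _ => ⟨zero_le_one, le_rfl⟩
  have bo' : ∀ x ∈ O (m + 1), 0 ≤ one x ∧ one x ≤ _ * ρ t x := one_bd ht
  have bρ : ∀ x ∈ O (m + 1), 0 ≤ ρ t x ∧ ρ t x ≤ 1 * ρ t x := fun x hx =>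
    ⟨le_trans (by positivity) (ρ_ge ht (mem_O.1 hx)), by simp⟩
  have bρ₁ : ∀ x ∈ O (m + 1), 0 ≤ ρ₁ x ∧ ρ₁ x ≤ 1 * ρ t x := fun x hx => by
    have h1 := mem_O.1 hx 0
    have h2 := ρ_ge ht (x := fun j : Fin m => x j.succ) (fun j => mem_O.1 hx _)
    refine ⟨mul_nonneg (by linarith) (by linarith), ?_⟩
    rw [one_mul, eρ]
    exact mul_le_mul_of_nonneg_left (by linarith [pow_pos ht m]) (by linarith)
  have bξ : ∀ x ∈ O (m + 1), 0 ≤ ξ x ∧ ξ x ≤ (t ^ m)⁻¹ * ρ t x := fun x hx => by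
    have h1 := mem_O.1 hx 0
    have h2 := ρ_ge ht (x := fun j : Fin m => x j.succ) (fun j => mem_O.1 hx _)
    refine ⟨by positivity, ?_⟩
    rw [le_inv_mul_iff₀ (by positivity), eρ, mul_comm]
    exact mul_le_mul_of_nonneg_left h2 (by linarith)
  have k1 := fkg ht mφ mρ bφ bρ (fun x hx y h => φ_anti ht (fun j => mem_O.1 hx _) (fun j => h _))
    (fun x hx y h => ρ_mono ht (mem_O.1 hx) h)
  have k2 := fkg ht mχ mρ₁ bχ bρ₁ (fun x hx y h => one_div_le_one_div_of_le
    (by linarith [mem_O.1 hx 0]) (by linarith [h 0])) (fun x hx y h => by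
      have h1 := mem_O.1 hx 0
      have h2 := ρ_ge ht (x := fun j : Fin m => x j.succ) (fun j => mem_O.1 hx _)
      have h3 := ρ_mono ht (x := fun j : Fin m => x j.succ) (y := fun j : Fin m => y j.succ)
        (fun j => mem_O.1 hx _) (fun j => h _)
      exact mul_le_mul (by linarith [h 0]) (by linarith) (by linarith) (by linarith [h 0]))
  have e1 : J t (φ t) one = J t φ' one + 1 * J t χ one := by
    rw [J, J, J, ← I_add (intr ht mφ mo bφ bo') (intr ht mχ mo bχ bo')]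
    exact I_congr (fun x _ => by rw [eφ]; ring)
  have e2 : J t one (ρ t) = J t one ρ₁ + t ^ m * J t one ξ := by
    rw [J, J, J, ← I_add (intr ht mo mρ₁ bo bρ₁) (intr ht mo mξ bo bξ)]
    exact I_congr (fun x _ => by rw [eρ]; simp only [ρ₁, ξ]; ring)
  have e3 : J t χ (ρ t) = J t χ ρ₁ + t ^ m * J t one one := by
    rw [J, J, J, ← I_add (intr ht mχ mρ₁ bχ bρ₁) (intr ht mo mo bo bo')]
    refine I_congr (fun x hx => ?_)
    have h1 := mem_O.1 hx 0
    rw [eρ]; simp only [ρ₁, χ, one]; field_simp; ring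
  have e4 : J (n := m + 1) t (φ t) (ρ t) = J t φ' (ρ t) + 1 * J t χ (ρ t) := by
    rw [J, J, J, ← I_add (intr ht mφ mρ bφ bρ) (intr ht mχ mρ bχ bρ)]
    exact I_congr (fun x _ => by rw [eφ]; ring)
  have hA : 0 < J t χ one := by
    refine I_pos (intr ht mχ mo bχ bo') (fun x hx => mul_nonneg (R_pos ht.le _ hx).le
      (mul_nonneg (bχ x hx).1 zero_le_one)) isOpen_univ ⟨_, C_mem one_pos, trivial⟩ (fun x hx => ?_)
    have := mem_O.1 hx.1.2 0
    exact mul_pos (R_pos ht.le _ hx.1.2) (by positivity)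
  have k3 : ∀ μ : ℝ, 0 < J t one ξ + (-2 * μ) * J t one one + μ ^ 2 * J t χ one := by
    intro μ
    have i1 := intr ht mo mξ bo bξ
    have i2 := intr ht mo mo bo bo'
    have i3 := intr ht mχ mo bχ bo'
    have i4 : ∀ {f g : (Fin (m + 1) → ℝ) → ℝ}, Int f → Int g → ∀ c : ℝ,
        Int (fun x => f x + c * g x) := fun hf hg c => by
      have := hf.add (hg.const_mul c)
      refine this.congr (Eventually.of_forall fun x => ?_)
      simp only [Pi.add_apply]; ring
    rw [J, J, J, ← I_add i1 i2, ← I_add (i4 i1 i2 _) i3]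
    have e : ∀ x ∈ O (m + 1), R t (-(1 / 2)) x * (one x * ξ x) + (-2 * μ) * (R t (-(1 / 2)) x *
        (one x * one x)) + μ ^ 2 * (R t (-(1 / 2)) x * (χ x * one x)) =
        R t (-(1 / 2)) x * ((x 0 + t - μ) ^ 2 / (x 0 + t)) := fun x hx => by
      have h1 := mem_O.1 hx 0
      simp only [ξ, χ, one]; field_simp; ring
    refine I_pos (i4 (i4 i1 i2 _) i3 _) (fun x hx => ?_) (U := {x | x 0 + t - μ ≠ 0})
      (isOpen_ne_fun (by fun_prop) continuous_const) ?_ (fun x hx => ?_)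
    · have h1 := mem_O.1 hx 0
      have := R_pos ht.le (-(1 / 2)) hx
      rw [e x hx]; positivity
    · by_cases h : 1 + t - μ = 0
      · exact ⟨_, C_mem two_pos, by simp; linarith⟩
      · exact ⟨_, C_mem one_pos, by simpa using h⟩
    · have h1 := mem_O.1 hx.1.2 0
      have h2 : x 0 + t - μ ≠ 0 := hx.2
      have := R_pos ht.le (-(1 / 2)) hx.1.2
      rw [e x hx.1.2]; positivity
  have k4 : J t one one ^ 2 < J t χ one * J t one ξ := by
    have := mul_pos hA (k3 (J t one one / J t χ one))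
    rw [← sub_pos]
    refine this.trans_eq ?_
    field_simp; ring
  have k5 := mul_lt_mul_of_pos_left k4 (pow_pos ht m)
  change _ * J t one one ≤ J t φ' one * J t one _ at k1
  change _ * J t one one ≤ J t χ one * J t one _ at k2
  rw [e4, e3, e1]
  rw [e2] at k1 ⊢
  nlinarith

/-- weighted moment with the reciprocal sum -/
noncomputable def K (n : ℕ) (t a : ℝ) : ℝ := ∫ x in Ici (0 : Fin n → ℝ), P x * (φ t x * R t a x)

lemma φ_meas (t : ℝ) : Measurable (φ t : (Fin n → ℝ) → ℝ) := by unfold φ; fun_prop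

lemma int_φR {t a : ℝ} (ht : 0 < t) (ha : a = 1 / 2 ∨ a = -(1 / 2)) :
    Int (fun x : Fin n → ℝ => φ t x * R t a x) :=
  (int_R ht.le ha).of_le ((φ_meas t).mul (R_meas t a)) (n / t) (fun x hx => by
    have h1 := φ_bd ht (mem_O.1 hx)
    have h2 := R_pos ht.le a hx
    rw [abs_of_nonneg (mul_nonneg h1.1 h2.le)]
    exact mul_le_mul_of_nonneg_right h1.2 h2.le)

lemma H_eq {t : ℝ} (ht : 0 < t) : H n t = K n t (1 / 2) * F n t - G n t * K n t (-(1 / 2)) := by
  have i1 := int_φR (n := n) ht (Or.inl rfl)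
  have i2 := int_φR (n := n) ht (Or.inr rfl)
  have i3 := int_R (n := n) ht.le (Or.inl rfl)
  have i4 := int_R (n := n) ht.le (Or.inr rfl)
  unfold H K F G
  simp only [res_eq]
  rw [← integral_mul_const, ← integral_mul_const, ← integral_sub (i1.mul_const _)
    (by exact i3.mul_const _)]
  refine setIntegral_congr_fun open_O.measurableSet (fun x hx => ?_)
  simp only
  rw [← integral_const_mul, ← integral_const_mul, ← integral_sub (by exact i4.const_mul _)
    (by exact i2.const_mul _)]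
  refine setIntegral_congr_fun open_O.measurableSet (fun y hy => ?_)
  have e : ∏ j, ((x j + t) / (y j + t)) ^ (1 / 2 : ℝ) = R t (1 / 2) x * R t (-(1 / 2)) y := by
    rw [R, R, ← Finset.prod_mul_distrib]
    refine Finset.prod_congr rfl (fun j _ => ?_)
    have h1 := mem_O.1 hx j
    have h2 := mem_O.1 hy j
    rw [div_rpow (by positivity) (by positivity), rpow_neg (by positivity), div_eq_mul_inv]
  simp only [e, Finset.sum_sub_distrib, φ, R]
  ring

lemma H_neg {m : ℕ} {t : ℝ} (ht : 0 < t) : H (m + 1) t < 0 := by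
  have hφ : ∀ (x : Fin (m + 1) → ℝ) (σ : Equiv.Perm (Fin (m + 1))), φ t (x ∘ σ) = φ t x :=
    fun x σ => Equiv.sum_comp σ (fun j => 1 / (x j + t))
  have e1 : F (m + 1) t = (m + 1).factorial * J t (fun _ : Fin (m + 1) → ℝ => 1) (fun _ => 1) := by
    refine (sym (int_R ht.le (Or.inr rfl)) (R_perm _ _)).trans ?_
    rw [J]; congr 1; exact I_congr (fun x _ => by simp)
  have e2 : G (m + 1) t = (m + 1).factorial * J t (fun _ : Fin (m + 1) → ℝ => 1) (ρ t) := by
    refine (sym (int_R ht.le (Or.inl rfl)) (R_perm _ _)).trans ?_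
    rw [J]; congr 1; exact I_congr (fun x hx => by rw [R_mul ht hx, one_mul])
  have e3 : K (m + 1) t (1 / 2) = (m + 1).factorial * J (n := m + 1) t (φ t) (ρ t) := by
    refine (sym (int_φR ht (Or.inl rfl)) (fun x σ => by rw [hφ, R_perm])).trans ?_
    rw [J]; congr 1; exact I_congr (fun x hx => by rw [R_mul ht hx]; ring)
  have e4 : K (m + 1) t (-(1 / 2)) = (m + 1).factorial * J (n := m + 1) t (φ t) (fun _ => 1) := by
    refine (sym (int_φR ht (Or.inr rfl)) (fun x σ => by rw [hφ, R_perm])).trans ?_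
    rw [J]; congr 1; exact I_congr (fun x hx => by ring)
  rw [H_eq ht, e1, e2, e3, e4]
  have h1 : (0 : ℝ) < (m + 1).factorial := by positivity
  nlinarith [mul_lt_mul_of_pos_left (strict (m := m) ht) (mul_pos h1 h1)]

lemma deriv_int {t a : ℝ} (ht : 0 < t) (ha : a = 1 / 2 ∨ a = -(1 / 2)) :
    HasDerivAt (fun s => ∫ x in Ici (0 : Fin n → ℝ), P x * R s a x) (a * K n t a) t := by
  unfold K
  simp only [res_eq]
  rw [← integral_const_mul]
  refine (hasDerivAt_integral_of_dominated_loc_of_deriv_le (s := Ioo (t / 2) (2 * t))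
    (F := fun s x => P x * R s a x) (F' := fun s x => a * (P x * (φ s x * R s a x)))
    (bound := fun x => |a| * (n / (t / 2) * (1 + 2 * t) ^ n) * (P x * β x))
    (Ioo_mem_nhds (by linarith) (by linarith))
    (Eventually.of_forall fun s => (P_cont.measurable.mul (R_meas s a)).aestronglyMeasurable)
    (int_R ht.le ha) ((int_φR ht ha).const_mul a).aestronglyMeasurable ?_
    (Integrable.const_mul int_β _) ?_).2
  · refine (ae_restrict_iff' open_O.measurableSet).2 (Eventually.of_forall fun x hx s hs => ?_)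
    have hs0 : 0 < s := by linarith [hs.1]
    have h1 := φ_bd hs0 (mem_O.1 hx)
    have h2 := R_pos hs0.le a hx
    have h3 := R_le hs0.le hs.2.le ha hx
    have h4 := P_nonneg x
    have h5 : (n : ℝ) / s ≤ n / (t / 2) := by gcongr; exact hs.1.le
    rw [norm_mul, Real.norm_eq_abs, Real.norm_of_nonneg (mul_nonneg h4 (mul_nonneg h1.1 h2.le))]
    calc _ ≤ |a| * (P x * (n / (t / 2) * ((1 + 2 * t) ^ n * β x))) := by
          gcongr; exact h1.2.trans h5
      _ = _ := by ring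
  · refine (ae_restrict_iff' open_O.measurableSet).2 (Eventually.of_forall fun x hx s hs => ?_)
    have hs0 : 0 < s := by linarith [hs.1]
    have h1 : ∀ j ∈ Finset.univ, HasDerivAt (fun s => (x j + s) ^ a) (1 * a * (x j + s) ^ (a - 1)) s :=
      fun j _ => ((hasDerivAt_id s).const_add (x j)).rpow_const
        (Or.inl (by have := mem_O.1 hx j; positivity))
    refine ((HasDerivAt.fun_finsetProd h1).const_mul (P x)).congr_deriv (Eq.symm ?_)
    rw [mul_left_comm, φ, Finset.sum_mul, Finset.mul_sum]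
    congr 1
    refine Finset.sum_congr rfl (fun j _ => ?_)
    have := mem_O.1 hx j
    rw [R, ← Finset.mul_prod_erase _ _ (Finset.mem_univ j), rpow_sub_one (by positivity),
      smul_eq_mul]
    ring

theorem result (n : ℕ) (hn : 1 ≤ n) :
    StrictAntiOn (fun t => F n t * G n t) (Ici 0) ∧
    ∀ t : ℝ, 0 < t → HasDerivAt (fun t => F n t * G n t) (H n t / 2) t ∧ H n t < 0 := by
  obtain ⟨m, rfl⟩ : ∃ m, n = m + 1 := ⟨n - 1, by omega⟩
  have hd : ∀ t : ℝ, 0 < t →
      HasDerivAt (fun t => F (m + 1) t * G (m + 1) t) (H (m + 1) t / 2) t := by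
    intro t ht
    refine ((deriv_int (n := m + 1) ht (Or.inr rfl)).fun_mul
      (deriv_int (n := m + 1) ht (Or.inl rfl))).congr_deriv (Eq.symm ?_)
    rw [H_eq ht]
    change _ = _ * G (m + 1) t + F (m + 1) t * _
    ring
  refine ⟨fun s hs t _ hst => ?_, fun t ht => ⟨hd t ht, H_neg ht⟩⟩
  have hs : 0 ≤ s := hs
  have h1 : StrictAntiOn (fun t => F (m + 1) t * G (m + 1) t) (Ioi 0) :=
    strictAntiOn_of_deriv_neg (convex_Ioi 0)
      (fun t ht => (hd t ht).continuousAt.continuousWithinAt) (fun t ht => by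
        rw [interior_Ioi] at ht
        rw [(hd t ht).deriv]; linarith [H_neg (m := m) ht])
  have h2 : 0 < (s + t) / 2 := by linarith
  exact (h1 h2 (by show 0 < t; linarith) (by linarith)).trans_le (anti hs h2.le (by linarith))

end Pool.Agent.Results.MP_58c014_an.Decreasing
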